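import Pool.Agent.Q287.RS.Final

/-!
# Random seed trees and the preferential attachment seed distance (MP_b12932_pr)

For independent uniformly random labelled trees `T_k`, `R_k` on `k` vertices the mean of the
preferential attachment seed distance `δ(T_k, R_k)` tends to `1`, with the rate `O(k^{-1/8})`.

The definitions are in `Pool/Agent/Q287/RS/PA.lean` and `Pool/Agent/Q287/RS/Final.lean` (and `trees`
in `Pool/Agent/Q287/RS/Graph.lean`):
* `attach G i`: the graph `G` with one new vertex joined to `i`; `deg G i`: the degree;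
* `paE T m F`: the expectation of `F (PA(k + m, T))` for a seed `T` with `k` vertices;
* `paP T m A`: the probability of `PA(k + m, T) ∈ A`;
* `IsoInv A`: `A` is invariant under isomorphisms, that is, a set of unlabelled graphs;
* `tv S T m`: the total variation distance of `PA(k + m, S)` and `PA(k + m, T)` as unlabelled trees;
* `seedDist S T`: the infimum (which is the limit) of `tv S T m` over `m`;
* `trees (Fin k)`: the labelled trees on `k` vertices;
* `meanDist k`: the mean of `seedDist S T` over all pairs of labelled trees on `k` vertices.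
-/

open Filter Topology

namespace Pool.Agent.Results.MP_b12932_pr.RandomSeeds

open Pool.Agent.Q287.RS

/-- (1) For trees `S`, `T` on `k ≥ 2` vertices `seedDist S T` is the limit of the total variation
distances of `PA(n, S)` and `PA(n, T)`.
(2) `E δ(T_k, R_k) → 1` for independent uniformly random labelled trees on `k` vertices.
(3) `1 - E δ(T_k, R_k) ≤ 4000 k^{-1/8}` for all `k ≥ 2`. -/
theorem result :
    (∀ k : ℕ, 2 ≤ k → ∀ S T : SimpleGraph (Fin k), S.IsTree → T.IsTree →
      Tendsto (tv S T) atTop (𝓝 (seedDist S T))) ∧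
    Tendsto meanDist atTop (𝓝 1) ∧
    (∀ k : ℕ, 2 ≤ k → 1 - 4000 / (k : ℝ) ^ (1 / 8 : ℝ) ≤ meanDist k) := by
  refine ⟨fun k hk S T hS hT => tendsto_tv hk hS hT, tendsto_mean, fun k hk => ?_⟩
  have h := mean_rate hk
  have h0 : (0:ℝ) ≤ k := Nat.cast_nonneg k
  rw [Real.sqrt_eq_rpow, Real.sqrt_eq_rpow, Real.sqrt_eq_rpow, ← Real.rpow_mul h0,
    ← Real.rpow_mul h0] at h
  norm_num at h ⊢
  exact h

end Pool.Agent.Results.MP_b12932_pr.RandomSeeds
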